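import Pool.Agent.H5.Solid

set_option autoImplicit false

namespace Pool.Agent.Results.MP_4a8fbb_co.Enlarge

open Pool.Agent.H5.JumpDefs Pool.Agent.H5.SolidDefs

theorem result :
    (∃ k Q, Jumps k dodecahedron Q ∧ SimilarLarger dodecahedron Q) ∧
    (∃ k Q, Jumps k icosahedron Q ∧ SimilarLarger icosahedron Q) :=
  ⟨H5.Solid.dod, H5.Solid.ico⟩

end Pool.Agent.Results.MP_4a8fbb_co.Enlarge
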